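import Pool.Agent.V7H53.FS.Char

/-! # The centralizer `C_S(E)` is the set of elements of `S` having no other `H`-conjugate in `S` -/

set_option autoImplicit false

namespace Pool.Agent.Results.MP_ed8607_al.IsolatedH53

open Pool.Agent.V7H53.FS

theorem result :
    ∀ (p : ℕ), p.Prime → ∀ (G : Type) [Group G] [Finite G] (S : Sylow p G) (H : Subgroup G),
      H.Normal →
      ∃ C : Subgroup G,
        (∀ x : G, x ∈ C ↔ x ∈ (S : Subgroup G) ∧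
          ∀ h ∈ H, h * x * h⁻¹ ∈ (S : Subgroup G) → h * x * h⁻¹ = x) ∧
        (C ≤ (S : Subgroup G) ∧
          (∀ t ∈ (S : Subgroup G) ⊓ H, ∀ x ∈ C, t * x = x * t) ∧
          (∀ P : Subgroup G, P ≤ (S : Subgroup G) ⊓ H → ∀ h ∈ H,
            (∀ y ∈ P, h * y * h⁻¹ ∈ (S : Subgroup G) ⊓ H) →
            ∃ g ∈ H, (∀ y ∈ P ⊔ C, g * y * g⁻¹ ∈ (S : Subgroup G)) ∧
              (∀ y ∈ P, g * y * g⁻¹ = h * y * h⁻¹) ∧ (∀ x ∈ C, g * x * g⁻¹ = x))) ∧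
        (∀ X : Subgroup G, X ≤ (S : Subgroup G) →
          (∀ t ∈ (S : Subgroup G) ⊓ H, ∀ x ∈ X, t * x = x * t) →
          (∀ P : Subgroup G, P ≤ (S : Subgroup G) ⊓ H → ∀ h ∈ H,
            (∀ y ∈ P, h * y * h⁻¹ ∈ (S : Subgroup G) ⊓ H) →
            ∃ g : G, (∀ y ∈ P ⊔ X, g * y * g⁻¹ ∈ (S : Subgroup G)) ∧
              (∀ y ∈ P, g * y * g⁻¹ = h * y * h⁻¹) ∧ (∀ x ∈ X, g * x * g⁻¹ = x)) →
          X ≤ C) := by
  intro p hp G _ _ S H hH
  have : Fact p.Prime := ⟨hp⟩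
  refine ⟨D S H, fun x => mem_D S H, ⟨D_le S H, D_comm S H, ?_⟩, ?_⟩
  · intro P hP h hh hhP
    obtain ⟨g, hgH, hg, hgx⟩ := D_ext' S H P hP h hh hhP
    have hgx' : ∀ x ∈ D S H, g * x * g⁻¹ = x := fun x hx => by rw [hgx x hx]; group
    refine ⟨g, hgH, fun y hy => ?_, hg, hgx'⟩
    have h1 : P ⊔ D S H ≤ (S : Subgroup G).comap (MulAut.conj g).toMonoidHom := by
      refine sup_le (fun z hz => ?_) fun z hz => ?_
      · show g * z * g⁻¹ ∈ (S : Subgroup G)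
        rw [hg z hz]; exact (hhP z hz).1
      · show g * z * g⁻¹ ∈ (S : Subgroup G)
        rw [hgx' z hz]; exact D_le S H hz
    exact h1 hy
  · intro X hX hXT hext x hx
    exact (mem_D S H).2 (iso_of_ext S H hX hXT hext hx)

end Pool.Agent.Results.MP_ed8607_al.IsolatedH53
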