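import Pool.Agent.V7H53.FS.Char

/-! # The equality holds as soon as `C_S(E)` centralizes a self-centralizing normal subgroup of `H` -/

set_option autoImplicit false

namespace Pool.Agent.Results.MP_ed8607_al.LayerH53

open Pool.Agent.V7H53.FS Subgroup

section
variable {G : Type*} [Group G] [Finite G] {p : ℕ} [hp : Fact p.Prime]

/-- A `p`-subgroup of `H` normalized by `H` lies in every Sylow subgroup. -/
lemma le_of_normal (S : Sylow p G) (H : Subgroup G) [hH : H.Normal] {Q : Subgroup G} (hQH : Q ≤ H)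
    (hQ : ∀ h ∈ H, ∀ q ∈ Q, h * q * h⁻¹ ∈ Q) (hQp : IsPGroup p Q) : Q ≤ (S : Subgroup G) ⊓ H := by
  have h1 : SylIn p H ((S : Subgroup G) ⊓ H) := by
    have h2 := sylIn_sup' S H (R := ⊥) bot_le
    rwa [sup_bot_eq] at h2
  obtain ⟨g, hg, hgQ⟩ := sylIn_conj h1 hQH hQp
  intro q hq
  have h3 := hgQ _ (hQ _ (H.inv_mem hg) q hq)
  have e : g * (g⁻¹ * q * g⁻¹⁻¹) * g⁻¹ = q := by group
  rwa [e] at h3

end

theorem result :
    ∀ (p : ℕ), p.Prime → ∀ (G : Type) [Group G] [Finite G] (S : Sylow p G) (H : Subgroup G),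
      H.Normal →
      (∀ N : Subgroup G, N ≤ H → (∀ h ∈ H, ∀ n ∈ N, h * n * h⁻¹ ∈ N) →
          Nat.Coprime (Nat.card N) p → N = ⊥) →
      ∀ X : Subgroup G, X ≤ (S : Subgroup G) →
        (∀ t ∈ (S : Subgroup G) ⊓ H, ∀ x ∈ X, t * x = x * t) →
        (∀ P : Subgroup G, P ≤ (S : Subgroup G) ⊓ H → ∀ h ∈ H,
            (∀ y ∈ P, h * y * h⁻¹ ∈ (S : Subgroup G) ⊓ H) →
            ∃ g : G, (∀ y ∈ P ⊔ X, g * y * g⁻¹ ∈ (S : Subgroup G)) ∧
              (∀ y ∈ P, g * y * g⁻¹ = h * y * h⁻¹) ∧ (∀ x ∈ X, g * x * g⁻¹ = x)) →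
        ∀ R : Subgroup G, R ≤ H → (∀ h ∈ H, ∀ r ∈ R, h * r * h⁻¹ ∈ R) →
          (∀ h ∈ H, (∀ r ∈ R, h * r = r * h) → h ∈ R) →
          (IsPGroup p R ∨ ∀ x ∈ X, ∀ r ∈ R, x * r = r * x) →
        ∀ x ∈ X, ∀ h ∈ H, x * h = h * x := by
  intro p hp G _ _ S H hH hO X hX hXT hext R hRH hRn hRc hR x hx h hh
  have : Fact p.Prime := ⟨hp⟩
  have hiso := iso_of_ext S H hX hXT hext hx
  have hxR : ∀ r ∈ R, x * r = r * x := by
    rcases hR with hR | hR
    · intro r hr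
      exact (hXT r (le_of_normal S H hRH hRn hR hr) x hx).symm
    · exact hR x hx
  -- the centre of `R`
  let Z : Subgroup G := R ⊓ centralizer (R : Set G)
  have hZc : ∀ z ∈ Z, ∀ r ∈ R, z * r = r * z := fun z hz r hr =>
    (mem_centralizer_iff.1 hz.2 r hr).symm
  have hZH : Z ≤ H := fun z hz => hRH hz.1
  have hZn : ∀ h ∈ H, ∀ z ∈ Z, h * z * h⁻¹ ∈ Z := by
    intro h hh z hz
    refine ⟨hRn h hh z hz.1, ?_⟩
    show h * z * h⁻¹ ∈ centralizer (R : Set G)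
    rw [mem_centralizer_iff]
    intro r hr
    have h1 : h⁻¹ * r * h ∈ R := by
      have := hRn _ (H.inv_mem hh) r hr
      simpa using this
    have h2 := hZc z hz _ h1
    have h3 : h * (z * (h⁻¹ * r * h)) * h⁻¹ = h * ((h⁻¹ * r * h) * z) * h⁻¹ := by rw [h2]
    have e1 : h * (z * (h⁻¹ * r * h)) * h⁻¹ = h * z * h⁻¹ * r := by group
    have e2 : h * ((h⁻¹ * r * h) * z) * h⁻¹ = r * (h * z * h⁻¹) := by group
    rw [e1, e2] at h3
    exact h3.symm
  -- its `p'`-part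
  let N : Subgroup G :=
    { carrier := {z | z ∈ Z ∧ (orderOf z).Coprime p}
      one_mem' := ⟨Z.one_mem, by simp⟩
      mul_mem' := by
        rintro a b ⟨ha, ha'⟩ ⟨hb, hb'⟩
        refine ⟨Z.mul_mem ha hb, ?_⟩
        have hc : Commute a b := hZc a ha b hb.1
        exact Nat.Coprime.coprime_dvd_left (hc.orderOf_mul_dvd_mul_orderOf) (Nat.Coprime.mul_left ha' hb')
      inv_mem' := by
        rintro a ⟨ha, ha'⟩
        exact ⟨Z.inv_mem ha, by rwa [orderOf_inv]⟩ }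
  have hN : N = ⊥ := by
    refine hO N (fun z hz => hZH hz.1) (fun h hh z hz => ⟨hZn h hh z hz.1, ?_⟩) ?_
    · have e : orderOf (h * z * h⁻¹) = orderOf z := by
        have := MulEquiv.orderOf_eq (MulAut.conj h) z
        simpa using this
      rw [e]; exact hz.2
    · rw [Nat.coprime_comm, Nat.Prime.coprime_iff_not_dvd hp]
      intro hd
      obtain ⟨z, hz⟩ := exists_prime_orderOf_dvd_card' (G := N) p hd
      have h1 : orderOf (z : G) = p := by rw [← hz]; simp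
      have h2 := z.2.2
      rw [h1, Nat.coprime_self] at h2
      exact hp.one_lt.ne' h2
  have hZp : IsPGroup p Z := by
    rintro ⟨z, hz⟩
    obtain ⟨k, m, hm, hkm⟩ := Nat.exists_eq_pow_mul_and_not_dvd (orderOf_pos z).ne' p hp.ne_one
    refine ⟨k, ?_⟩
    apply Subtype.ext
    show z ^ p ^ k = 1
    have h1 : z ^ p ^ k ∈ N := by
      refine ⟨Z.pow_mem hz _, ?_⟩
      rw [orderOf_pow, hkm, Nat.gcd_mul_right_left, Nat.mul_div_cancel_left _ (pow_pos hp.pos k)]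
      exact Nat.Coprime.symm ((Nat.Prime.coprime_iff_not_dvd hp).2 hm)
    rw [hN] at h1
    exact mem_bot.1 h1
  have hZT := le_of_normal S H hZH hZn hZp
  -- the commutator
  have hc : x⁻¹ * (h * x * h⁻¹) ∈ Z := by
    have hcH : x⁻¹ * (h * x * h⁻¹) ∈ H := by
      have e : x⁻¹ * (h * x * h⁻¹) = (x⁻¹ * h * x⁻¹⁻¹) * h⁻¹ := by group
      rw [e]
      exact H.mul_mem (hH.conj_mem h hh _) (H.inv_mem hh)
    have hcR : ∀ r ∈ R, (x⁻¹ * (h * x * h⁻¹)) * r = r * (x⁻¹ * (h * x * h⁻¹)) := by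
      intro r hr
      have h1 : h⁻¹ * r * h ∈ R := by
        have := hRn _ (H.inv_mem hh) r hr
        simpa using this
      have h2 := hxR _ h1
      have h3 : x⁻¹ * r = r * x⁻¹ := by
        have h4 := hxR r hr
        have h5 : x⁻¹ * (x * r) * x⁻¹ = x⁻¹ * (r * x) * x⁻¹ := by rw [h4]
        have e1 : x⁻¹ * (x * r) * x⁻¹ = r * x⁻¹ := by group
        have e2 : x⁻¹ * (r * x) * x⁻¹ = x⁻¹ * r := by group
        rw [e1, e2] at h5
        exact h5.symm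
      calc (x⁻¹ * (h * x * h⁻¹)) * r = x⁻¹ * h * (x * (h⁻¹ * r * h)) * h⁻¹ := by group
        _ = x⁻¹ * h * ((h⁻¹ * r * h) * x) * h⁻¹ := by rw [h2]
        _ = (x⁻¹ * r) * (h * x * h⁻¹) := by group
        _ = (r * x⁻¹) * (h * x * h⁻¹) := by rw [h3]
        _ = r * (x⁻¹ * (h * x * h⁻¹)) := by group
    refine ⟨hRc _ hcH hcR, ?_⟩
    show x⁻¹ * (h * x * h⁻¹) ∈ centralizer (R : Set G)
    rw [mem_centralizer_iff]
    exact fun r hr => (hcR r hr).symm
  have h1 : h * x * h⁻¹ ∈ (S : Subgroup G) := by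
    have e : h * x * h⁻¹ = x * (x⁻¹ * (h * x * h⁻¹)) := by group
    rw [e]
    exact (S : Subgroup G).mul_mem hiso.1 (hZT hc).1
  have h2 := hiso.2 h hh h1
  have h3 : h * x * h⁻¹ * h = x * h := by rw [h2]
  rw [← h3]; group

end Pool.Agent.Results.MP_ed8607_al.LayerH53
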