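import Pool.Agent.V7H53.FS.Char

/-! # For each prime, the question is equivalent to the `Z*`-theorem at that prime -/

set_option autoImplicit false

namespace Pool.Agent.Results.MP_ed8607_al.ZStarEquivH53

open Pool.Agent.V7H53.FS Subgroup

theorem result :
    ∀ (p : ℕ), p.Prime →
    ((∀ (G : Type) [Group G] [Finite G] (S : Sylow p G) (H : Subgroup G),
      H.Normal →
      (∀ N : Subgroup G, N ≤ H → (∀ h ∈ H, ∀ n ∈ N, h * n * h⁻¹ ∈ N) →
          Nat.Coprime (Nat.card N) p → N = ⊥) →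
      ∀ X : Subgroup G, X ≤ (S : Subgroup G) →
        (∀ t ∈ (S : Subgroup G) ⊓ H, ∀ x ∈ X, t * x = x * t) →
        (∀ P : Subgroup G, P ≤ (S : Subgroup G) ⊓ H → ∀ h ∈ H,
            (∀ y ∈ P, h * y * h⁻¹ ∈ (S : Subgroup G) ⊓ H) →
            ∃ g : G, (∀ y ∈ P ⊔ X, g * y * g⁻¹ ∈ (S : Subgroup G)) ∧
              (∀ y ∈ P, g * y * g⁻¹ = h * y * h⁻¹) ∧ (∀ x ∈ X, g * x * g⁻¹ = x)) →
        ∀ x ∈ X, ∀ h ∈ H, x * h = h * x) ↔
    (∀ (K : Type) [Group K] [Finite K] (S : Sylow p K),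
      (∀ N : Subgroup K, N.Normal → Nat.Coprime (Nat.card N) p → N = ⊥) →
      ∀ x ∈ (S : Subgroup K),
        (∀ g : K, g * x * g⁻¹ ∈ (S : Subgroup K) → g * x * g⁻¹ = x) →
        ∀ g : K, x * g = g * x)) := by
  intro p hp
  have : Fact p.Prime := ⟨hp⟩
  constructor
  · intro hQ K _ _ S hK x hx hiso g
    have hxD : x ∈ D S (⊤ : Subgroup K) := (mem_D S ⊤).2 ⟨hx, fun h _ => hiso h⟩
    refine hQ K S ⊤ inferInstance ?_ (D S ⊤) (D_le S ⊤) (D_comm S ⊤) (D_ext S ⊤) x hxD g (mem_top _)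
    intro N _ hN hco
    exact hK N ⟨fun n hn g => hN g (mem_top _) n hn⟩ hco
  · intro hZ G _ _ S H hH hO X hX hXT hext x hx h hh
    have hiso := iso_of_ext S H hX hXT hext hx
    set K := H ⊔ zpowers x with hKd
    have hHK : H ≤ K := le_sup_left
    have hxK : x ∈ K := (le_sup_right : zpowers x ≤ H ⊔ zpowers x) (mem_zpowers x)
    have hxp : IsPGroup p (zpowers x) := S.2.to_le (by rw [zpowers_le]; exact hiso.1)
    -- a Sylow subgroup of `K`
    have hS1 := sylIn_sup (p := p) S H hiso.1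
    have h2 : IsPGroup p (((S : Subgroup G) ⊓ K).subgroupOf K) := hS1.pg.comap_subtype
    obtain ⟨Q, hQ⟩ := h2.exists_le_sylow
    have h3 : ((S : Subgroup G) ⊓ K).subgroupOf K = (Q : Subgroup K) := by
      apply eq_of_le_of_dvd hQ Q.2
      intro k hk
      have e : Nat.card (((S : Subgroup G) ⊓ K).subgroupOf K) = Nat.card ((S : Subgroup G) ⊓ K : Subgroup G) :=
        Nat.card_congr (Subgroup.subgroupOfEquivOfLe hS1.le).toEquiv
      rw [e]
      exact hS1.dvd k (hk.trans (Subgroup.card_subgroup_dvd_card _))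
    have hmemQ : ∀ y : K, y ∈ (Q : Subgroup K) ↔ (y : G) ∈ (S : Subgroup G) := by
      intro y
      rw [← h3, mem_subgroupOf]
      exact ⟨fun h => h.1, fun h => ⟨h, y.2⟩⟩
    have h4 := hZ K Q ?_ ⟨x, hxK⟩ ((hmemQ _).2 hiso.1) ?_ ⟨h, hHK hh⟩
    · exact congrArg Subtype.val h4
    · -- `O_{p'}(K) = 1`
      intro N hN hco
      have hcard : Nat.card (N.map K.subtype) = Nat.card N :=
        Nat.card_congr (Subgroup.equivMapOfInjective _ _ K.subtype_injective).symm.toEquiv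
      have hNH : N.map K.subtype ≤ H := by
        intro y hy
        have hyK : y ∈ K := map_subtype_le _ hy
        refine mem_left_of_coprime (fun m _ b hb => hH.conj_mem b hb m) hxp hyK ?_
        have h5 : orderOf y ∣ Nat.card (N.map K.subtype) := Subgroup.orderOf_dvd_natCard _ hy
        rw [hcard] at h5
        exact Nat.Coprime.coprime_dvd_left h5 hco
      have h6 : N.map K.subtype = ⊥ := by
        refine hO _ hNH ?_ (by rwa [hcard])
        rintro k hk _ ⟨n, hn, rfl⟩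
        exact ⟨⟨k, hHK hk⟩ * n * ⟨k, hHK hk⟩⁻¹, hN.conj_mem n hn _, rfl⟩
      exact (Subgroup.map_eq_bot_iff_of_injective _ K.subtype_injective).1 h6
    · -- `x` is isolated in `K`
      rintro ⟨g, hg⟩ hgx
      rw [hmemQ] at hgx
      obtain ⟨c, hc, d, hd, e⟩ := exists_of_mem_sup (fun m _ b hb => hH.conj_mem b hb m) hg
      obtain ⟨i, rfl⟩ := mem_zpowers_iff.1 hd
      have h5 : g * x * g⁻¹ = c * x * c⁻¹ := by rw [e]; group
      have h6 : g * x * g⁻¹ ∈ (S : Subgroup G) := hgx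
      rw [h5] at h6
      have h7 := hiso.2 c hc h6
      apply Subtype.ext
      show g * x * g⁻¹ = x
      rw [h5, h7]

end Pool.Agent.Results.MP_ed8607_al.ZStarEquivH53
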